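import Pool.Agent.Helper5.FRD.Goals
import Pool.Agent.Helper9.FRC.DISG

/-!
# Project FRD (MP_79b960_co): packet FRD-DISGH
-/

set_option autoImplicit false

namespace Pool.Agent.Helper99.FRD.DISGH

open Finset Pool.Agent.Helper5.FRC Pool.Agent.Helper5.FRD
open Pool.Agent.Helper9.FRC.DISG (half two)

/-- **DISGH**. -/
theorem t (HS : SubmStmt) (HC : ClosehStmt) (HE : EvenpStmt) : DisghStmt := by
  intro V _ _ n A Z t l hA hP hl hB hZ hC hev
  obtain ⟨p, p', hp, hp', hpp⟩ := HE V n Z hC hev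
  obtain ⟨t1, ht1, hl1, hu1⟩ := HC V A Z t p hP hZ hp
  obtain ⟨t2, ht2, hl2, hu2⟩ := HC V A Z t p' hP hZ hp'
  by_cases b1 : Bl n (A \ Z) t1 l
  · exact ⟨p, t1, ⟨hp, fun z hz => (hpp z hz).1⟩, ⟨ht1, hl1, hu1⟩, b1⟩
  by_cases b2 : Bl n (A \ Z) t2 l
  · exact ⟨p', t2, ⟨hp', fun z hz => (hpp z hz).2.1⟩, ⟨ht2, hl2, hu2⟩, b2⟩
  exfalso
  rw [Nat.even_iff] at hev
  obtain ⟨K, W, hK, hW, iK, dK, oK, cW, wW, w0, wZ⟩ :=
    half HS hl hB hZ hC.2.1 hev hp ht1 hl1 b1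
  obtain ⟨K', W', hK', hW', iK', dK', oK', cW', wW', w0', wZ'⟩ :=
    half HS hl hB hZ hC.2.1 hev hp' ht2 hl2 b2
  have key : (∀ z ∈ W, p' z ∈ W) → False := by
    intro hc
    have hi : Inv n W := by
      intro z hz
      rcases (hpp z (hW hz)).2.2 with h | h
      · rw [h]
        exact cW z hz
      · rw [h]
        exact hc z hz
    exact wZ (hC.2.2 W hW (nonempty_iff_ne_empty.mpr w0) hi)
  refine two HS hA hP hB hZ hC.2.1 hev hK hK' hW hW' iK iK' dK dK' oK oK' wW wW' ?_ ?_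
  · intro h
    refine key fun z hz => ?_
    rw [h] at hz ⊢
    exact cW' z hz
  · intro h
    refine key fun z hz => ?_
    rw [h, mem_sdiff] at hz ⊢
    refine ⟨(hp' z hz.1).1, fun hz' => hz.2 ?_⟩
    have := cW' _ hz'
    rwa [(hp' z hz.1).2.1] at this

end Pool.Agent.Helper99.FRD.DISGH
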